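import Mathlib

/-!
Auxiliary combinatorial lemmas: small dominating sets for antisymmetric relations, polynomial
hashing, enumerations of small finite sets.
-/

namespace Pool.Agent.MP_b75ab8_co.Sub

open Finset

/-- In an antisymmetric relation on a nonempty finite set some element has at most half of the
set below it. -/
theorem exists_low {α : Type} [DecidableEq α] (R : α → α → Prop) [DecidableRel R]
    (hR : ∀ a b, R a b → R b a → False) (A : Finset α) (hA : A.Nonempty) :
    ∃ l ∈ A, 2 * (A.filter (fun j => R j l)).card ≤ A.card := by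
  by_contra hcon
  push Not at hcon
  have h1 : ∑ l ∈ A, (A.filter (fun j => R j l)).card = ∑ l ∈ A, (A.filter (fun j => R l j)).card := by
    have := Finset.sum_card_bipartiteAbove_eq_sum_card_bipartiteBelow (s := A) (t := A) R
    simp only [Finset.bipartiteAbove, Finset.bipartiteBelow] at this
    exact this.symm
  have h2 : ∀ l ∈ A, (A.filter (fun j => R j l)).card + (A.filter (fun j => R l j)).card ≤ A.card := by
    intro l _
    rw [← card_union_of_disjoint]
    · exact card_le_card (union_subset (filter_subset _ _) (filter_subset _ _))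
    · rw [Finset.disjoint_left]
      intro a ha hb
      rw [mem_filter] at ha hb
      exact hR _ _ ha.2 hb.2
  have h3 : ∑ l ∈ A, 2 * (A.filter (fun j => R j l)).card ≤ ∑ l ∈ A, A.card := by
    calc ∑ l ∈ A, 2 * (A.filter (fun j => R j l)).card
        = ∑ l ∈ A, (A.filter (fun j => R j l)).card + ∑ l ∈ A, (A.filter (fun j => R j l)).card := by
          rw [← sum_add_distrib]
          exact sum_congr rfl fun l _ => by ring
      _ = ∑ l ∈ A, (A.filter (fun j => R j l)).card + ∑ l ∈ A, (A.filter (fun j => R l j)).card := by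
          rw [h1]
      _ = ∑ l ∈ A, ((A.filter (fun j => R j l)).card + (A.filter (fun j => R l j)).card) := by
          rw [sum_add_distrib]
      _ ≤ _ := sum_le_sum h2
  have h4 : ∑ l ∈ A, A.card < ∑ l ∈ A, 2 * (A.filter (fun j => R j l)).card :=
    sum_lt_sum_of_nonempty hA hcon
  omega

/-- Small dominating sets. -/
theorem exists_dominating {α : Type} [DecidableEq α] (R : α → α → Prop)
    (hR : ∀ a b, R a b → R b a → False) (N : ℕ) :
    ∀ A : Finset α, A.card ≤ N → A.Nonempty → ∃ M ⊆ A, M.Nonempty ∧
      M.card ≤ Nat.log 2 A.card + 1 ∧ ∀ j ∈ A, j ∉ M → ∃ l ∈ M, ¬ R j l := by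
  classical
  induction N with
  | zero =>
    intro A h1 h2
    exact absurd (card_pos.2 h2) (by omega)
  | succ N ih =>
    intro A h1 hA
    obtain ⟨l, hl, hlow⟩ := exists_low R hR A hA
    set A' := A.filter (fun j => R j l) with hA'
    have hpos := card_pos.2 hA
    by_cases hne : A'.Nonempty
    · have hpos' := card_pos.2 hne
      obtain ⟨M, hM1, hM2, hM3, hM4⟩ := ih A' (by omega) hne
      refine ⟨insert l M, ?_, insert_nonempty _ _, ?_, ?_⟩
      · intro a ha
        rw [mem_insert] at ha
        rcases ha with rfl | ha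
        · exact hl
        · exact (filter_subset _ _) (hM1 ha)
      · have h5 : Nat.log 2 A'.card + 1 ≤ Nat.log 2 A.card := by
          have h6 : Nat.log 2 (A'.card * 2) = Nat.log 2 A'.card + 1 :=
            Nat.log_mul_base (by norm_num) (by omega)
          rw [← h6]
          exact Nat.log_mono_right (by omega)
        have := card_insert_le l M
        omega
      · intro j hj hjM
        rw [mem_insert, not_or] at hjM
        by_cases hjl : R j l
        · obtain ⟨l', hl', hR'⟩ := hM4 j (mem_filter.2 ⟨hj, hjl⟩) hjM.2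
          exact ⟨l', mem_insert_of_mem hl', hR'⟩
        · exact ⟨l, mem_insert_self _ _, hjl⟩
    · refine ⟨{l}, by simpa using hl, singleton_nonempty _, by simp, ?_⟩
      intro j hj hjM
      refine ⟨l, mem_singleton_self _, fun hjl => hne ⟨j, mem_filter.2 ⟨hj, hjl⟩⟩⟩

/-- Listing a small set. -/
theorem exists_list {α : Type} [DecidableEq α] (A : Finset α) (T : ℕ) (hA : A.card ≤ T) :
    ∃ e : Fin T → Option α, ∀ j, j ∈ A ↔ ∃ c, e c = some j := by
  classical
  have hcard : Fintype.card A ≤ Fintype.card (Fin T) := by simpa using hA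
  obtain ⟨g⟩ := Function.Embedding.nonempty_of_card_le hcard
  refine ⟨fun c => if h : ∃ a : A, g a = c then some (h.choose : α) else none, fun j => ?_⟩
  constructor
  · intro hj
    refine ⟨g ⟨j, hj⟩, ?_⟩
    have h : ∃ a : A, g a = g ⟨j, hj⟩ := ⟨_, rfl⟩
    show (if h : ∃ a : A, g a = g ⟨j, hj⟩ then some (h.choose : α) else none) = some j
    rw [dif_pos h]
    have := g.injective h.choose_spec
    rw [this]
  · rintro ⟨c, hc⟩
    change (if h : ∃ a : A, g a = c then some (h.choose : α) else none) = some j at hc
    by_cases h : ∃ a : A, g a = c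
    · rw [dif_pos h] at hc
      have := Option.some.inj hc
      rw [← this]
      exact h.choose.2
    · rw [dif_neg h] at hc
      exact absurd hc (by simp)

/-- Enumerating a small nonempty set with repetitions. -/
theorem exists_enum {α : Type} [DecidableEq α] (M : Finset α) (μ : ℕ) (hM : M.card ≤ μ)
    (hne : M.Nonempty) :
    ∃ f : Fin μ → α, (∀ m, f m ∈ M) ∧ ∀ l ∈ M, ∃ m, f m = l := by
  classical
  have hcard : Fintype.card M ≤ Fintype.card (Fin μ) := by simpa using hM
  obtain ⟨g⟩ := Function.Embedding.nonempty_of_card_le hcard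
  have : Nonempty M := hne.to_subtype
  refine ⟨fun m => (Function.invFun g m : M), fun m => (Function.invFun g m).2, fun l hl => ?_⟩
  refine ⟨g ⟨l, hl⟩, ?_⟩
  show ((Function.invFun g (g ⟨l, hl⟩) : M) : α) = l
  rw [Function.leftInverse_invFun g.injective]

/-- Polynomial hash. -/
noncomputable def hash {E : Type} {T p : ℕ} (enc : E → ZMod p) (t : ZMod p) (ι : Fin T → E) :
    ZMod p :=
  ∑ c : Fin T, enc (ι c) * t ^ (c : ℕ)

open Polynomial in
theorem card_bad {E : Type} {T p : ℕ} [Fact p.Prime] (enc : E → ZMod p)
    (henc : Function.Injective enc) (ι κ : Fin T → E) (h : ι ≠ κ) :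
    ((univ : Finset (ZMod p)).filter (fun t => hash enc t ι = hash enc t κ)).card ≤ T := by
  classical
  set P : (ZMod p)[X] := ∑ c : Fin T, C (enc (ι c) - enc (κ c)) * X ^ (c : ℕ) with hP
  have hdeg : P.degree < T := degree_sum_fin_lt _
  have hP0 : P ≠ 0 := by
    obtain ⟨c, hc⟩ := Function.ne_iff.1 h
    intro h0
    have h1 : P.coeff (c : ℕ) = enc (ι c) - enc (κ c) := by
      rw [hP, finsetSum_coeff]
      rw [Finset.sum_eq_single c]
      · rw [coeff_C_mul, coeff_X_pow, if_pos rfl, mul_one]
      · intro b _ hb
        rw [coeff_C_mul, coeff_X_pow, if_neg, mul_zero]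
        intro h2
        exact hb (Fin.ext h2).symm
      · simp
    rw [h0, coeff_zero] at h1
    exact hc (henc (sub_eq_zero.1 h1.symm))
  have hsub : (univ : Finset (ZMod p)).filter (fun t => hash enc t ι = hash enc t κ) ⊆
      P.roots.toFinset := by
    intro t ht
    rw [mem_filter] at ht
    rw [Multiset.mem_toFinset, mem_roots hP0, IsRoot.def, hP, eval_finsetSum]
    have := ht.2
    simp only [hash] at this
    simp only [eval_mul, eval_C, eval_pow, eval_X, sub_mul, sum_sub_distrib]
    rw [this, sub_self]
  calc _ ≤ P.roots.toFinset.card := card_le_card hsub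
    _ ≤ P.roots.card := Multiset.toFinset_card_le _
    _ ≤ P.natDegree := card_roots' P
    _ ≤ T := by
      have := natDegree_lt_iff_degree_lt hP0 |>.2 hdeg
      omega

/-- A good hash parameter for few pairs. -/
theorem exists_hash {E J : Type} [Fintype J] {T p : ℕ} [Fact p.Prime] (enc : E → ZMod p)
    (henc : Function.Injective enc) (a b : J → Fin T → E) (hJ : Fintype.card J * T < p) :
    ∃ t : ZMod p, ∀ j, a j ≠ b j → hash enc t (a j) ≠ hash enc t (b j) := by
  classical
  by_contra hcon
  push Not at hcon
  have hsub : (univ : Finset (ZMod p)) ⊆ ((univ : Finset J).filter (fun j => a j ≠ b j)).biUnion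
      (fun j => univ.filter (fun t => hash enc t (a j) = hash enc t (b j))) := by
    intro t _
    obtain ⟨j, hj, hjt⟩ := hcon t
    rw [mem_biUnion]
    exact ⟨j, mem_filter.2 ⟨mem_univ _, hj⟩, mem_filter.2 ⟨mem_univ _, hjt⟩⟩
  have h1 := card_le_card hsub
  have h2 := card_biUnion_le_card_mul ((univ : Finset J).filter (fun j => a j ≠ b j))
      (fun j => univ.filter (fun t => hash enc t (a j) = hash enc t (b j))) T
      (fun j hj => card_bad enc henc _ _ (mem_filter.1 hj).2)
  have h3 : ((univ : Finset J).filter (fun j => a j ≠ b j)).card ≤ Fintype.card J := by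
    rw [← card_univ]; exact card_filter_le _ _
  have h4 : (univ : Finset (ZMod p)).card = p := by rw [card_univ, ZMod.card]
  rw [h4] at h1
  have h5 := Nat.mul_le_mul_right T h3
  omega

end Pool.Agent.MP_b75ab8_co.Sub
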