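import Mathlib

/-!
From a leader structure (a finite set of symbols and acceptance relations such that two players
are never happy at the same time and every player can always become happy) to `k`-piercing box
partitions of `[n]^d`.
-/

namespace Pool.Agent.MP_b75ab8_co.Sub

open Finset

variable {n d k : ℕ} {Ω : Type}

/-- Player `i` is happy at `y` if the symbol `y i` accepts all the other symbols. -/
def Happy (acc : Fin d → Ω → Fin d → Ω → Prop) (y : Fin d → Ω) (i : Fin d) : Prop :=
  ∀ j, j ≠ i → acc i (y i) j (y j)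

/-- A leader structure: never two happy players; every player can always become happy. -/
structure IsLeader (acc : Fin d → Ω → Fin d → Ω → Prop) : Prop where
  unique : ∀ y i j, Happy acc y i → Happy acc y j → i = j
  exists_happy : ∀ y i, ∃ w, Happy acc (Function.update y i w) i

/-- Codes of boxes. -/
abbrev Code (d k : ℕ) (Ω : Type) := (Fin d × Ω × Fin k) ⊕ (Fin d → Ω)

open Classical in
/-- The box of a code. -/
noncomputable def boxOf (acc : Fin d → Ω → Fin d → Ω → Prop) (φ : Fin n → Ω × Fin k) :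
    Code d k Ω → Fin d → Finset (Fin n)
  | Sum.inl (i, w, c) => fun j =>
      if j = i then univ.filter (fun v => φ v = (w, c))
      else univ.filter (fun v => acc i w j (φ v).1)
  | Sum.inr y => fun j => univ.filter (fun v => (φ v).1 = y j)

/-- The codes in use. -/
def Valid (acc : Fin d → Ω → Fin d → Ω → Prop) (φ : Fin n → Ω × Fin k) (c : Code d k Ω) : Prop :=
  (∀ j, (boxOf acc φ c j).Nonempty) ∧ ∀ y, c = Sum.inr y → ∀ i, ¬ Happy acc y i

variable {acc : Fin d → Ω → Fin d → Ω → Prop} {φ : Fin n → Ω × Fin k}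

lemma mem_inl {i : Fin d} {w : Ω} {c : Fin k} {x : Fin d → Fin n} :
    (∀ j, x j ∈ boxOf acc φ (Sum.inl (i, w, c)) j) ↔
      φ (x i) = (w, c) ∧ ∀ j, j ≠ i → acc i w j (φ (x j)).1 := by
  classical
  constructor
  · intro h
    refine ⟨by simpa [boxOf] using h i, fun j hj => by simpa [boxOf, hj] using h j⟩
  · rintro ⟨h1, h2⟩ j
    by_cases hj : j = i
    · subst hj; simpa [boxOf] using h1
    · simpa [boxOf, hj] using h2 j hj

lemma mem_inr {y : Fin d → Ω} {x : Fin d → Fin n} :
    (∀ j, x j ∈ boxOf acc φ (Sum.inr y : Code d k Ω) j) ↔ ∀ j, (φ (x j)).1 = y j := by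
  classical
  simp [boxOf]

theorem exists_code (x : Fin d → Fin n) :
    ∃ c : Code d k Ω, Valid acc φ c ∧ ∀ j, x j ∈ boxOf acc φ c j := by
  classical
  by_cases h : ∃ i, Happy acc (fun j => (φ (x j)).1) i
  · obtain ⟨i, hi⟩ := h
    have hm : ∀ j, x j ∈ boxOf acc φ (Sum.inl (i, (φ (x i)).1, (φ (x i)).2)) j :=
      mem_inl.2 ⟨rfl, hi⟩
    exact ⟨_, ⟨fun j => ⟨x j, hm j⟩, fun y hy => by simp at hy⟩, hm⟩
  · push Not at h
    have hm : ∀ j, x j ∈ boxOf acc φ (Sum.inr (fun j => (φ (x j)).1) : Code d k Ω) j :=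
      mem_inr.2 fun j => rfl
    refine ⟨_, ⟨fun j => ⟨x j, hm j⟩, fun y hy => ?_⟩, hm⟩
    rw [← Sum.inr.inj hy]
    exact h

theorem code_unique (hacc : IsLeader acc) (x : Fin d → Fin n) (c c' : Code d k Ω)
    (hc : Valid acc φ c) (hc' : Valid acc φ c') (h : ∀ j, x j ∈ boxOf acc φ c j)
    (h' : ∀ j, x j ∈ boxOf acc φ c' j) : c = c' := by
  rcases c with ⟨i, w, t⟩ | y <;> rcases c' with ⟨i', w', t'⟩ | y'
  · rw [mem_inl] at h h'
    have h1 : Happy acc (fun j => (φ (x j)).1) i := fun j hj => by
      show acc i (φ (x i)).1 j (φ (x j)).1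
      rw [h.1]; exact h.2 j hj
    have h2 : Happy acc (fun j => (φ (x j)).1) i' := fun j hj => by
      show acc i' (φ (x i')).1 j (φ (x j)).1
      rw [h'.1]; exact h'.2 j hj
    have hii := hacc.unique _ _ _ h1 h2
    subst hii
    have := h.1.symm.trans h'.1
    rw [Prod.mk.injEq] at this
    rw [this.1, this.2]
  · rw [mem_inl] at h
    rw [mem_inr] at h'
    exfalso
    refine hc'.2 y' rfl i fun j hj => ?_
    rw [← h' i, ← h' j, h.1]
    exact h.2 j hj
  · rw [mem_inl] at h'
    rw [mem_inr] at h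
    exfalso
    refine hc.2 y rfl i' fun j hj => ?_
    rw [← h i', ← h j, h'.1]
    exact h'.2 j hj
  · rw [mem_inr] at h h'
    have : y = y' := by
      funext j; rw [← h j, ← h' j]
    rw [this]

open Classical in
/-- The partition. -/
noncomputable def thePartition [Fintype Ω] (acc : Fin d → Ω → Fin d → Ω → Prop)
    (φ : Fin n → Ω × Fin k) : Finset (Fin d → Finset (Fin n)) :=
  ((univ : Finset (Code d k Ω)).filter (Valid acc φ)).image (boxOf acc φ)

variable [Fintype Ω]

theorem mem_thePartition {B : Fin d → Finset (Fin n)} :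
    B ∈ thePartition acc φ ↔ ∃ c : Code d k Ω, Valid acc φ c ∧ boxOf acc φ c = B := by
  classical
  simp [thePartition]

theorem part_nonempty : ∀ B ∈ thePartition acc φ, ∀ i : Fin d, (B i).Nonempty := by
  intro B hB i
  rw [mem_thePartition] at hB
  obtain ⟨c, hc, rfl⟩ := hB
  exact hc.1 i

theorem part_unique (hacc : IsLeader acc) (x : Fin d → Fin n) :
    ∃! B, B ∈ thePartition acc φ ∧ ∀ i : Fin d, x i ∈ B i := by
  obtain ⟨c, hc, hx⟩ := exists_code (acc := acc) (φ := φ) x
  refine ⟨boxOf acc φ c, ⟨mem_thePartition.2 ⟨c, hc, rfl⟩, hx⟩, ?_⟩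
  rintro B ⟨hB, hxB⟩
  rw [mem_thePartition] at hB
  obtain ⟨c', hc', rfl⟩ := hB
  rw [code_unique hacc x c c' hc hc' hx hxB]

theorem part_piercing (hacc : IsLeader acc) (hφ : Function.Surjective φ) (i : Fin d)
    (a : Fin d → Fin n) :
    k ≤ ((thePartition acc φ).filter (fun B => ∃ t : Fin n, ∀ j : Fin d,
      Function.update a i t j ∈ B j)).card := by
  classical
  obtain ⟨w, hw⟩ := hacc.exists_happy (fun j => (φ (a j)).1) i
  choose t ht using fun c : Fin k => hφ (w, c)
  let f : Fin k → (Fin d → Finset (Fin n)) := fun c => boxOf acc φ (Sum.inl (i, w, c))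
  have hmem : ∀ c, ∀ j, Function.update a i (t c) j ∈ f c j := by
    intro c
    refine mem_inl.2 ⟨by simp [ht], fun j hj => ?_⟩
    have := hw j hj
    simp only [Function.update_self, Function.update_of_ne hj] at this
    rw [Function.update_of_ne hj]
    exact this
  have hinj : Function.Injective f := by
    intro c c' hcc
    have h1 := hmem c
    rw [hcc] at h1
    have h2 := (mem_inl.1 h1).1
    simp only [Function.update_self, ht, Prod.mk.injEq, true_and] at h2
    exact h2
  have hcard : k = ((univ : Finset (Fin k)).image f).card := by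
    rw [card_image_of_injective _ hinj]; simp
  calc k = ((univ : Finset (Fin k)).image f).card := hcard
    _ ≤ _ := by
      apply card_le_card
      intro B hB
      simp only [mem_image, mem_univ, true_and] at hB
      obtain ⟨c, rfl⟩ := hB
      rw [mem_filter, mem_thePartition]
      exact ⟨⟨Sum.inl (i, w, c), ⟨fun j => ⟨_, hmem c j⟩, fun y hy => by simp at hy⟩, rfl⟩,
        t c, hmem c⟩

theorem card_thePartition :
    (thePartition acc φ).card ≤ d * Fintype.card Ω * k + Fintype.card Ω ^ d := by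
  classical
  refine card_image_le.trans ((card_filter_le _ _).trans ?_)
  rw [card_univ]
  simp [mul_assoc]

theorem exists_surj (hΩ : Nonempty Ω) (hk : 0 < k) (hn : Fintype.card Ω * k ≤ n) :
    ∃ φ : Fin n → Ω × Fin k, Function.Surjective φ := by
  classical
  have : Nonempty (Fin k) := ⟨⟨0, hk⟩⟩
  have hcard : Fintype.card (Ω × Fin k) ≤ Fintype.card (Fin n) := by
    simpa using hn
  obtain ⟨g⟩ := Function.Embedding.nonempty_of_card_le hcard
  exact ⟨Function.invFun g, Function.invFun_surjective g.injective⟩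

/-- The reduction. -/
theorem exists_partition (hΩ : Nonempty Ω) (hacc : IsLeader acc) (hk : 0 < k)
    (hn : Fintype.card Ω * k ≤ n) :
    ∃ P : Finset (Fin d → Finset (Fin n)),
      (∀ B ∈ P, ∀ i : Fin d, (B i).Nonempty) ∧
      (∀ x : Fin d → Fin n, ∃! B, B ∈ P ∧ ∀ i : Fin d, x i ∈ B i) ∧
      (∀ i : Fin d, ∀ a : Fin d → Fin n,
        k ≤ (P.filter (fun B => ∃ t : Fin n, ∀ j : Fin d,
          Function.update a i t j ∈ B j)).card) ∧
      P.card ≤ d * Fintype.card Ω * k + Fintype.card Ω ^ d := by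
  obtain ⟨φ, hφ⟩ := exists_surj (n := n) (k := k) hΩ hk hn
  exact ⟨thePartition acc φ, part_nonempty, part_unique hacc, part_piercing hacc hφ,
    card_thePartition⟩

end Pool.Agent.MP_b75ab8_co.Sub
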