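import Mathlib
import Pool.Agent.Lib.MP_b75ab8_co_Sub.Reduction
import Pool.Agent.Lib.MP_b75ab8_co_Sub.Lemmas

/-!
The leader structure with few symbols.
-/

namespace Pool.Agent.MP_b75ab8_co.Sub

open Finset

/-- The information shown by a symbol: a list of at most `T` players, each with a bit. -/
abbrev Info (d T : ℕ) := Fin T → Option (Fin d × Bool)

/-- The symbols: a class, the own list, the claimed lists of the listed players, a number, and for
every class a skip certificate (players with hash value and number, and a hash parameter). -/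
structure Sym (d T q μ p : ℕ) where
  cls : Fin q
  lst : Info d T
  clm : Fin T → Info d T
  num : ZMod p
  skM : Fin q → Fin μ → Fin d × ZMod p × ZMod p
  skT : Fin q → ZMod p

variable {d T q μ p : ℕ}

/-- The bit of player `l` in a list. -/
def bit (ι : Info d T) (l : Fin d) : Prop := ∃ c, ι c = some (l, true)

/-- The antisymmetric relation between the bits of two players. -/
def rel (i j : Fin d) (P Q : Prop) : Prop := if i < j then (P ↔ Q) else (P ↔ ¬ Q)

theorem rel_antisymm (i j : Fin d) (hij : i ≠ j) (P Q : Prop) (h1 : rel i j P Q)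
    (h2 : rel j i Q P) : False := by
  unfold rel at h1 h2
  rcases lt_trichotomy i j with h | h | h
  · rw [if_pos h] at h1
    rw [if_neg (not_lt.2 h.le)] at h2
    tauto
  · exact hij h
  · rw [if_neg (not_lt.2 h.le)] at h1
    rw [if_pos h] at h2
    tauto

theorem rel_self (i : Fin d) (P : Prop) (h : rel i i P P) : False := by
  unfold rel at h
  rw [if_neg (lt_irrefl _)] at h
  tauto

variable (enc : Option (Fin d × Bool) → ZMod p)

/-- Player `i` with symbol `w` accepts player `j` with symbol `u`. -/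
def acc (i : Fin d) (w : Sym d T q μ p) (j : Fin d) (u : Sym d T q μ p) : Prop :=
  (u.cls = w.cls → ∃ c b, w.lst c = some (j, b)) ∧
  (∀ c b, w.lst c = some (j, b) →
    u.cls = w.cls ∧ u.lst = w.clm c ∧ rel i j (bit w.lst j) (bit u.lst i)) ∧
  (∀ s, s < w.cls →
    (∀ m, (w.skM s m).1 ≠ i) ∧
    (∀ m, (w.skM s m).1 = j →
      u.cls = s ∧ hash enc (w.skT s) u.lst = (w.skM s m).2.1 ∧ u.num = (w.skM s m).2.2) ∧
    (u.cls = s → (∀ m, (w.skM s m).1 ≠ j) → ∃ m, ∀ c b, u.lst c = some ((w.skM s m).1, b) →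
      hash enc (w.skT s) (u.clm c) ≠ (w.skM s m).2.1 ∨
        ¬ rel j (w.skM s m).1 (bit u.lst (w.skM s m).1) (bit (u.clm c) j))) ∧
  (w.cls < u.cls → ∀ m, (u.skM w.cls m).1 = i → (u.skM w.cls m).2.2 ≠ w.num)

variable {enc}

/-- Two players of the same class are not both happy. -/
theorem not_both_eq {x : Fin d → Sym d T q μ p} {i j : Fin d} (hij : i ≠ j)
    (hc : (x i).cls = (x j).cls) (hi : Happy (acc enc) x i) (hj : Happy (acc enc) x j) : False := by
  have h1 := hi j hij.symm
  have h2 := hj i hij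
  obtain ⟨c, b, hcb⟩ := h1.1 hc.symm
  obtain ⟨c', b', hcb'⟩ := h2.1 hc
  exact rel_antisymm i j hij _ _ (h1.2.1 c b hcb).2.2 (h2.2.1 c' b' hcb').2.2

/-- Two players of different classes are not both happy. -/
theorem not_both_lt {x : Fin d → Sym d T q μ p} {i j : Fin d} (hij : i ≠ j)
    (hc : (x j).cls < (x i).cls) (hi : Happy (acc enc) x i) (hj : Happy (acc enc) x j) : False := by
  have h1 := hi j hij.symm
  have h2 := hj i hij
  obtain ⟨hne, hM, hO⟩ := h1.2.2.1 _ hc
  by_cases hjM : ∃ m, ((x i).skM (x j).cls m).1 = j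
  · obtain ⟨m, hm⟩ := hjM
    exact h2.2.2.2 hc m hm (hM m hm).2.2.symm
  · push Not at hjM
    obtain ⟨m, hm⟩ := hO rfl hjM
    have h3 := (hi _ (hne m)).2.2.1 _ hc
    have h4 := h3.2.1 m rfl
    have h5 := hj _ (hjM m)
    obtain ⟨c, b, hcb⟩ := h5.1 h4.1
    obtain ⟨-, h6, h7⟩ := h5.2.1 c b hcb
    rcases hm c b hcb with h8 | h8
    · rw [← h6] at h8
      exact h8 h4.2.1
    · rw [← h6] at h8
      exact h8 h7

theorem unique (x : Fin d → Sym d T q μ p) (i j : Fin d) (hi : Happy (acc enc) x i)
    (hj : Happy (acc enc) x j) : i = j := by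
  by_contra hij
  rcases lt_trichotomy (x i).cls (x j).cls with h | h | h
  · exact not_both_lt (Ne.symm hij) h hj hi
  · exact not_both_eq hij h hi hj
  · exact not_both_lt hij h hi hj

/-- Existence of skip certificates for a nonempty class. -/
theorem exists_skip [Fact p.Prime] (henc : Function.Injective enc)
    (hμ : Nat.log 2 d + 1 ≤ μ) (hp : d * T * μ * T < p)
    (y : Fin d → Sym d T q μ p) (A : Finset (Fin d)) (hA : A.Nonempty) :
    ∃ (f : Fin μ → Fin d) (t : ZMod p), (∀ m, f m ∈ A) ∧
      ∀ j ∈ A, (∀ m, f m ≠ j) → ∃ m, ∀ c b, (y j).lst c = some (f m, b) →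
        hash enc t ((y j).clm c) ≠ hash enc t (y (f m)).lst ∨
          ¬ rel j (f m) (bit (y j).lst (f m)) (bit ((y j).clm c) j) := by
  classical
  let R : Fin d → Fin d → Prop := fun j l => ∃ c b, (y j).lst c = some (l, b) ∧
    (y j).clm c = (y l).lst ∧ rel j l (bit (y j).lst l) (bit (y l).lst j)
  have hR : ∀ a b, R a b → R b a → False := by
    rintro a b ⟨c, e, -, -, h1⟩ ⟨c', e', -, -, h2⟩
    by_cases hab : a = b
    · subst hab
      exact rel_self a _ h1
    · exact rel_antisymm a b hab _ _ h1 h2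
  obtain ⟨M, hMA, hMne, hMc, hMd⟩ := exists_dominating R hR A.card A le_rfl hA
  have hAd : A.card ≤ d := by simpa using card_le_univ A
  have hMμ : M.card ≤ μ := by
    have := Nat.log_mono_right (b := 2) hAd
    omega
  obtain ⟨f, hfM, hfs⟩ := exists_enum M μ hMμ hMne
  obtain ⟨t, ht⟩ := exists_hash (J := Fin d × Fin T × Fin μ) enc henc
    (fun z => (y z.1).clm z.2.1) (fun z => (y (f z.2.2)).lst) (by
      simp only [Fintype.card_prod, Fintype.card_fin]
      calc d * (T * μ) * T = d * T * μ * T := by ring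
        _ < p := hp)
  refine ⟨f, t, fun m => hMA (hfM m), fun j hj hjf => ?_⟩
  have hjM : j ∉ M := fun h => by
    obtain ⟨m, hm⟩ := hfs j h
    exact hjf m hm
  obtain ⟨l, hl, hRl⟩ := hMd j hj hjM
  obtain ⟨m, rfl⟩ := hfs l hl
  refine ⟨m, fun c b hcb => ?_⟩
  by_cases h : (y j).clm c = (y (f m)).lst
  · right
    intro hrel
    rw [h] at hrel
    exact hRl ⟨c, b, hcb, h, hrel⟩
  · left
    exact ht (j, c, m) h

/-- Every player can become happy. -/
theorem exists_happy [Fact p.Prime] (henc : Function.Injective enc)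
    (hμ : Nat.log 2 d + 1 ≤ μ) (hp : d * T * μ * T < p) (hp' : d * μ < p)
    (hq : d ≤ q * (T + 1)) (y : Fin d → Sym d T q μ p) (i : Fin d) :
    ∃ w, Happy (acc enc) (Function.update y i w) i := by
  classical
  -- the members of a class
  let A : Fin q → Finset (Fin d) := fun s => univ.filter (fun j => j ≠ i ∧ (y j).cls = s)
  have hmemA : ∀ s j, j ∈ A s ↔ j ≠ i ∧ (y j).cls = s := fun s j => by simp [A]
  -- a small class exists
  have hsmall : ∃ s, (A s).card ≤ T := by
    by_contra hcon
    push Not at hcon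
    have h1 : ∑ s : Fin q, (A s).card = (univ.filter (fun j : Fin d => j ≠ i)).card := by
      rw [card_eq_sum_card_fiberwise (f := fun j => (y j).cls) (t := univ) (fun _ _ => mem_univ _)]
      refine sum_congr rfl fun s _ => ?_
      rw [filter_filter]
    have h2 : (univ.filter (fun j : Fin d => j ≠ i)).card < d := by
      calc _ < (univ : Finset (Fin d)).card := by
            apply card_lt_card
            rw [Finset.ssubset_iff_of_subset (filter_subset _ _)]
            exact ⟨i, mem_univ _, by simp⟩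
        _ = d := by simp
    have h3 : q * (T + 1) ≤ ∑ s : Fin q, (A s).card := by
      calc q * (T + 1) = ∑ _s : Fin q, (T + 1) := by simp
        _ ≤ _ := sum_le_sum fun s _ => hcon s
    omega
  -- the first small class
  obtain ⟨s₀, hs₀, hmin⟩ : ∃ s, (A s).card ≤ T ∧ ∀ s' < s, T < (A s').card := by
    let S : Finset (Fin q) := univ.filter (fun s => (A s).card ≤ T)
    have hS : S.Nonempty := by
      obtain ⟨s, hs⟩ := hsmall
      exact ⟨s, by simpa [S] using hs⟩
    refine ⟨S.min' hS, ?_, fun s' hs' => ?_⟩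
    · have := S.min'_mem hS
      simpa [S] using this
    · by_contra hcon
      have hmem : s' ∈ S := by simpa [S] using hcon
      exact absurd (S.min'_le s' hmem) (not_le.2 hs')
  -- own list
  obtain ⟨e, he⟩ := exists_list (A s₀) T hs₀
  let bt : Fin d → Bool := fun j =>
    decide (if i < j then bit (y j).lst i else ¬ bit (y j).lst i)
  -- number
  obtain ⟨γ, hγ⟩ : ∃ γ : ZMod p, ∀ j m, ((y j).skM s₀ m).2.2 ≠ γ := by
    by_contra hcon
    push Not at hcon
    have hsub : (univ : Finset (ZMod p)) ⊆ (univ : Finset (Fin d × Fin μ)).image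
        (fun z => ((y z.1).skM s₀ z.2).2.2) := by
      intro γ _
      obtain ⟨j, m, hjm⟩ := hcon γ
      rw [mem_image]
      exact ⟨(j, m), mem_univ _, hjm⟩
    have h1 := (card_le_card hsub).trans card_image_le
    rw [card_univ, ZMod.card, card_univ] at h1
    simp only [Fintype.card_prod, Fintype.card_fin] at h1
    omega
  -- skip certificates
  have hskip : ∀ s, ∃ (f : Fin μ → Fin d) (t : ZMod p), s < s₀ → (∀ m, f m ∈ A s) ∧
      ∀ j ∈ A s, (∀ m, f m ≠ j) → ∃ m, ∀ c b, (y j).lst c = some (f m, b) →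
        hash enc t ((y j).clm c) ≠ hash enc t (y (f m)).lst ∨
          ¬ rel j (f m) (bit (y j).lst (f m)) (bit ((y j).clm c) j) := by
    intro s
    by_cases hs : s < s₀
    · have hpos : (A s).Nonempty := card_pos.1 (by have := hmin s hs; omega)
      obtain ⟨f, t, h⟩ := exists_skip henc hμ hp y (A s) hpos
      exact ⟨f, t, fun _ => h⟩
    · exact ⟨fun _ => i, 0, fun h => absurd h hs⟩
  choose f t hft using hskip
  refine ⟨⟨s₀, fun c => (e c).map (fun j => (j, bt j)),
    fun c => (e c).elim (fun _ => none) (fun j => (y j).lst), γ,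
    fun s m => (f s m, hash enc (t s) (y (f s m)).lst, (y (f s m)).num), t⟩, ?_⟩
  -- the own bits
  have hbit : ∀ j, j ∈ A s₀ →
      (bit (d := d) (T := T) (fun c => (e c).map (fun j => (j, bt j))) j ↔ bt j = true) := by
    intro j hj
    unfold bit
    constructor
    · rintro ⟨c, hc⟩
      rw [Option.map_eq_some_iff] at hc
      obtain ⟨a, -, ha⟩ := hc
      rw [Prod.mk.injEq] at ha
      rw [← ha.1]; exact ha.2
    · intro hb
      obtain ⟨c, hc⟩ := (he j).1 hj
      exact ⟨c, by simp [hc, hb]⟩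
  intro j hj
  simp only [Function.update_self, Function.update_of_ne hj]
  refine ⟨?_, ?_, ?_, ?_⟩
  · -- listed
    intro hcls
    obtain ⟨c, hc⟩ := (he j).1 ((hmemA _ _).2 ⟨hj, hcls⟩)
    exact ⟨c, bt j, by simp [hc]⟩
  · -- correct claims
    intro c b hcb
    simp only [Option.map_eq_some_iff, Prod.mk.injEq] at hcb
    obtain ⟨a, hca, rfl, -⟩ := hcb
    have haA := (he a).2 ⟨c, hca⟩
    refine ⟨((hmemA _ _).1 haA).2, by simp [hca], ?_⟩
    unfold rel
    have hb := hbit a haA
    by_cases hia : i < a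
    · rw [if_pos hia, hb]
      simp only [bt, hia, if_true, decide_eq_true_eq]
    · rw [if_neg hia, hb]
      simp only [bt, hia, if_false, decide_eq_true_eq]
  · -- skips
    intro s hs
    obtain ⟨h1, h2⟩ := hft s hs
    refine ⟨fun m => ((hmemA _ _).1 (h1 m)).1, fun m hm => ?_, fun hcls hjm => ?_⟩
    · dsimp only at hm ⊢
      subst hm
      exact ⟨((hmemA _ _).1 (h1 m)).2, rfl, rfl⟩
    · exact h2 j ((hmemA _ _).2 ⟨hj, hcls⟩) hjm
  · -- rejections
    intro _ m _
    exact hγ j m

theorem isLeader [Fact p.Prime] (henc : Function.Injective enc)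
    (hμ : Nat.log 2 d + 1 ≤ μ) (hp : d * T * μ * T < p) (hp' : d * μ < p)
    (hq : d ≤ q * (T + 1)) : IsLeader (acc (d := d) (T := T) (q := q) (μ := μ) enc) :=
  ⟨unique, exists_happy henc hμ hp hp' hq⟩

end Pool.Agent.MP_b75ab8_co.Sub
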