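import Mathlib
import Pool.Agent.Lib.MP_b75ab8_co_Sub.Structure

/-!
Counting the symbols, and the choice of the parameters.
-/

namespace Pool.Agent.MP_b75ab8_co.Sub

open Finset

variable {d T q μ p : ℕ}

/-- The symbols as a product type. -/
def symEquiv : Sym d T q μ p ≃ Fin q × Info d T × (Fin T → Info d T) × ZMod p ×
    (Fin q → Fin μ → Fin d × ZMod p × ZMod p) × (Fin q → ZMod p) where
  toFun w := (w.cls, w.lst, w.clm, w.num, w.skM, w.skT)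
  invFun z := ⟨z.1, z.2.1, z.2.2.1, z.2.2.2.1, z.2.2.2.2.1, z.2.2.2.2.2⟩
  left_inv _ := rfl
  right_inv _ := rfl

noncomputable instance symFintype [NeZero p] : Fintype (Sym d T q μ p) :=
  letI : Fintype (ZMod p) := ZMod.fintype p
  Fintype.ofEquiv _ symEquiv.symm

theorem card_sym [NeZero p] : Fintype.card (Sym d T q μ p) =
    q * ((d * 2 + 1) ^ T * (((d * 2 + 1) ^ T) ^ T * (p * (((d * (p * p)) ^ μ) ^ q * p ^ q)))) := by
  classical
  rw [Fintype.card_congr symEquiv]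
  simp [Fintype.card_prod, ZMod.card]

/-- For every `b` there is a leader structure with `8 ^ b` players and at most
`2 ^ (128 (b + 1) ^ 2 * 4 ^ b)` symbols. -/
theorem exists_isLeader (b : ℕ) :
    ∃ (Ω : Type) (_ : Fintype Ω) (acc : Fin (8 ^ b) → Ω → Fin (8 ^ b) → Ω → Prop),
      Nonempty Ω ∧ IsLeader acc ∧ Fintype.card Ω ≤ 2 ^ (128 * (b + 1) ^ 2 * 4 ^ b) := by
  classical
  have hb2 : b + 1 ≤ 2 ^ b := Nat.lt_two_pow_self
  have h8 : (8 : ℕ) ^ b = 2 ^ (3 * b) := by rw [pow_mul]; norm_num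
  have h4 : (4 : ℕ) ^ b = 2 ^ (2 * b) := by rw [pow_mul]; norm_num
  have h2pos : 0 < 2 ^ b := by positivity
  -- the prime
  set n₀ : ℕ := 32 ^ b * (3 * (b + 1)) with hn₀
  have hn₀pos : n₀ ≠ 0 := by positivity
  obtain ⟨p, hpp, hpl, hpu⟩ := Nat.exists_prime_lt_and_le_two_mul n₀ hn₀pos
  have : Fact p.Prime := ⟨hpp⟩
  have : NeZero p := ⟨hpp.ne_zero⟩
  have hpu2 : p ≤ 2 ^ (6 * b + 3) := by
    calc p ≤ 2 * n₀ := hpu
      _ ≤ 2 * (32 ^ b * (4 * 2 ^ b)) := by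
          rw [hn₀]; gcongr; omega
      _ = 2 ^ (6 * b + 3) := by
          rw [show (32 : ℕ) ^ b = 2 ^ (5 * b) by rw [pow_mul]; norm_num,
            show 6 * b + 3 = 1 + (5 * b + (2 + b)) by ring, pow_add, pow_add, pow_add]
          norm_num
  have h832 : (8 : ℕ) ^ b ≤ 32 ^ b := Nat.pow_le_pow_left (by norm_num) b
  have h32 : (8 : ℕ) ^ b * 2 ^ b * 2 ^ b = 32 ^ b := by
    rw [← mul_pow, ← mul_pow]; norm_num
  have hp1 : 8 ^ b * 2 ^ b * (3 * b + 1) * 2 ^ b < p := by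
    calc 8 ^ b * 2 ^ b * (3 * b + 1) * 2 ^ b = 32 ^ b * (3 * b + 1) := by rw [← h32]; ring
      _ ≤ n₀ := by rw [hn₀]; gcongr; omega
      _ < p := hpl
  have hp2 : 8 ^ b * (3 * b + 1) < p := by
    calc 8 ^ b * (3 * b + 1) ≤ 32 ^ b * (3 * (b + 1)) := by gcongr; omega
      _ < p := hpl
  have hcardE : Fintype.card (Option (Fin (8 ^ b) × Bool)) ≤ Fintype.card (ZMod p) := by
    rw [ZMod.card]
    simp only [Fintype.card_option, Fintype.card_prod, Fintype.card_fin, Fintype.card_bool]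
    have : 8 ^ b * 2 ≤ n₀ := by
      rw [hn₀]; gcongr; omega
    omega
  obtain ⟨enc⟩ := Function.Embedding.nonempty_of_card_le hcardE
  have hlog : Nat.log 2 (8 ^ b) + 1 ≤ 3 * b + 1 := by
    rw [h8, Nat.log_pow (by norm_num)]
  have hq : 8 ^ b ≤ 4 ^ b * (2 ^ b + 1) := by
    calc 8 ^ b = 4 ^ b * 2 ^ b := by rw [← mul_pow]; norm_num
      _ ≤ _ := by gcongr; omega
  refine ⟨Sym (8 ^ b) (2 ^ b) (4 ^ b) (3 * b + 1) p, symFintype, acc enc, ?_,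
    isLeader enc.injective hlog hp1 hp2 hq, ?_⟩
  · exact ⟨⟨⟨0, by positivity⟩, fun _ => none, fun _ _ => none, 0,
      fun _ _ => (⟨0, by positivity⟩, 0, 0), fun _ => 0⟩⟩
  · rw [card_sym]
    have hd : 8 ^ b * 2 + 1 ≤ 2 ^ (3 * b + 2) := by
      rw [h8, pow_add]
      have : 1 ≤ 2 ^ (3 * b) := Nat.one_le_two_pow
      omega
    have hdpp : 8 ^ b * (p * p) ≤ 2 ^ (15 * b + 6) := by
      calc 8 ^ b * (p * p) ≤ 2 ^ (3 * b) * (2 ^ (6 * b + 3) * 2 ^ (6 * b + 3)) := by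
            rw [h8]; gcongr
        _ = 2 ^ (15 * b + 6) := by rw [← pow_add, ← pow_add]; congr 1; ring
    have h1 : (8 ^ b * 2 + 1) ^ 2 ^ b ≤ 2 ^ ((3 * b + 2) * 4 ^ b) := by
      calc (8 ^ b * 2 + 1) ^ 2 ^ b ≤ (2 ^ (3 * b + 2)) ^ 2 ^ b := by gcongr
        _ = 2 ^ ((3 * b + 2) * 2 ^ b) := by rw [← pow_mul]
        _ ≤ _ := by
          apply Nat.pow_le_pow_right (by norm_num)
          gcongr
          norm_num
    have h2 : ((8 ^ b * 2 + 1) ^ 2 ^ b) ^ 2 ^ b ≤ 2 ^ ((3 * b + 2) * 4 ^ b) := by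
      calc ((8 ^ b * 2 + 1) ^ 2 ^ b) ^ 2 ^ b ≤ ((2 ^ (3 * b + 2)) ^ 2 ^ b) ^ 2 ^ b := by gcongr
        _ = 2 ^ ((3 * b + 2) * (2 ^ b * 2 ^ b)) := by
          rw [← pow_mul, ← pow_mul]
        _ = _ := by rw [← mul_pow]; norm_num
    have h3 : ((8 ^ b * (p * p)) ^ (3 * b + 1)) ^ 4 ^ b ≤
        2 ^ ((15 * b + 6) * (3 * b + 1) * 4 ^ b) := by
      calc ((8 ^ b * (p * p)) ^ (3 * b + 1)) ^ 4 ^ b
          ≤ ((2 ^ (15 * b + 6)) ^ (3 * b + 1)) ^ 4 ^ b := by gcongr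
        _ = _ := by rw [← pow_mul, ← pow_mul]; congr 1; ring
    have h5 : p ^ 4 ^ b ≤ 2 ^ ((6 * b + 3) * 4 ^ b) := by
      calc p ^ 4 ^ b ≤ (2 ^ (6 * b + 3)) ^ 4 ^ b := by gcongr
        _ = _ := by rw [← pow_mul]
    have h4pos : 1 ≤ 4 ^ b := Nat.one_le_pow _ _ (by norm_num)
    calc 4 ^ b * ((8 ^ b * 2 + 1) ^ 2 ^ b * (((8 ^ b * 2 + 1) ^ 2 ^ b) ^ 2 ^ b * (p *
          (((8 ^ b * (p * p)) ^ (3 * b + 1)) ^ 4 ^ b * p ^ 4 ^ b))))
        ≤ 2 ^ (2 * b) * (2 ^ ((3 * b + 2) * 4 ^ b) * (2 ^ ((3 * b + 2) * 4 ^ b) *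
          (2 ^ (6 * b + 3) * (2 ^ ((15 * b + 6) * (3 * b + 1) * 4 ^ b) *
            2 ^ ((6 * b + 3) * 4 ^ b))))) := by
          apply Nat.mul_le_mul h4.le
          apply Nat.mul_le_mul h1
          apply Nat.mul_le_mul h2
          apply Nat.mul_le_mul hpu2
          exact Nat.mul_le_mul h3 h5
      _ = 2 ^ (2 * b + ((3 * b + 2) * 4 ^ b + ((3 * b + 2) * 4 ^ b + ((6 * b + 3) +
            ((15 * b + 6) * (3 * b + 1) * 4 ^ b + (6 * b + 3) * 4 ^ b))))) := by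
          simp only [pow_add]
      _ ≤ 2 ^ (128 * (b + 1) ^ 2 * 4 ^ b) := by
          apply Nat.pow_le_pow_right (by norm_num)
          have h6 : 2 * b ≤ 2 * b * 4 ^ b := Nat.le_mul_of_pos_right _ (by omega)
          have h7 : 6 * b + 3 ≤ (6 * b + 3) * 4 ^ b := Nat.le_mul_of_pos_right _ (by omega)
          calc _ ≤ 2 * b * 4 ^ b + ((3 * b + 2) * 4 ^ b + ((3 * b + 2) * 4 ^ b +
                ((6 * b + 3) * 4 ^ b +
                ((15 * b + 6) * (3 * b + 1) * 4 ^ b + (6 * b + 3) * 4 ^ b)))) := by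
                gcongr
            _ = (45 * b ^ 2 + 53 * b + 16) * 4 ^ b := by ring
            _ ≤ _ := by
              apply Nat.mul_le_mul_right
              nlinarith

end Pool.Agent.MP_b75ab8_co.Sub
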